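import Pool.Agent.H64.SocRel

set_option autoImplicit false

namespace Pool.Agent.Results.MP_16f0b8_lc.RamseySocNegative

open Pool.Agent.H64.Soc

/-- A problem in the sense of computable reducibility: instances, each with its set of
solutions, which are sets of natural numbers. -/
structure Problem where
  /-- the instances -/
  Inst : Type
  /-- the solutions of an instance -/
  Sol : Inst → Set (Set ℕ)

/-- `[ℕ]ⁿ`, the `n`-element sets of natural numbers. -/
def Tuples (n : ℕ) : Type := {s : Finset ℕ // s.card = n}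

/-- Ramsey's theorem `RTⁿₖ`: an instance is a colouring of `[ℕ]ⁿ` with `k` colours, a solution
is an infinite homogeneous set, that is, an infinite set all of whose `n`-element subsets have
the same colour. -/
def RT (n k : ℕ) : Problem where
  Inst := Tuples n → Fin k
  Sol f := {H | H.Infinite ∧ ∃ i : Fin k, ∀ s : Tuples n, (∀ x ∈ s.1, x ∈ H) → f s = i}

/-- The characteristic function of a set of natural numbers. -/
noncomputable def chr (X : Set ℕ) : ℕ → ℕ := X.indicator fun _ => 1

/-- Strong omniscient computable reducibility of `Q` to `P`, relative to a family `𝒞` of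
oracles: for every `Q`-instance `X` there is a `P`-instance `Y` such that every `P`-solution `Z`
of `Y` computes, with the help of the oracles in `𝒞`, some `Q`-solution `W` of `X`.
For `𝒞 = ∅` this is `Q ≤_soc P`. -/
def SocReducible (𝒞 : Set (ℕ →. ℕ)) (Q P : Problem) : Prop :=
  ∀ X : Q.Inst, ∃ Y : P.Inst, ∀ Z ∈ P.Sol Y, ∃ W ∈ Q.Sol X,
    ComputableIn (insert (fun m => Part.some (chr Z m)) 𝒞) (chr W)

/-- the pair of two different numbers -/
private def pr (x y : ℕ) (h : x ≠ y) : Tuples 2 := ⟨{x, y}, Finset.card_pair h⟩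

/-- the triple of three different numbers -/
private def tr (x y z : ℕ) (h1 : x ≠ y) (h2 : x ≠ z) (h3 : y ≠ z) : Tuples 3 :=
  ⟨{x, y, z}, Finset.card_eq_three.2 ⟨x, y, z, h1, h2, h3, rfl⟩⟩

open Classical in
/-- the binary colouring attached to a colouring of pairs -/
private noncomputable def bin (d : Tuples 2 → Fin 2) (x y : ℕ) : Fin 2 :=
  if h : x = y then 0 else d (pr x y h)

/-- a set homogeneous for `bin d` in increasing order is a solution of `d` -/
private theorem sol_of_bin (d : Tuples 2 → Fin 2) (H : Set ℕ) (hH : H.Infinite)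
    (hc : ∃ c : Fin 2, ∀ x ∈ H, ∀ y ∈ H, x < y → bin d x y = c) : H ∈ (RT 2 2).Sol d := by
  refine ⟨hH, ?_⟩
  obtain ⟨c, hc⟩ := hc
  refine ⟨c, ?_⟩
  rintro ⟨s, hs⟩ hsH
  obtain ⟨x, y, hxy, rfl⟩ := Finset.card_eq_two.1 hs
  have hx : x ∈ H := hsH x (by simp)
  have hy : y ∈ H := hsH y (by simp)
  rcases lt_or_gt_of_ne hxy with h | h
  · have h1 := hc x hx y hy h
    rw [bin, dif_neg hxy] at h1
    exact h1
  · have h1 := hc y hy x hx h
    rw [bin, dif_neg hxy.symm] at h1
    rw [← h1]
    congr 1
    exact Subtype.ext (Finset.pair_comm x y)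

open Classical in
/-- a triple is coloured by whether all its pairs have the same colour -/
private noncomputable def mono (f : ℕ → ℕ → Fin 3) (s : Tuples 3) : Fin 2 :=
  if ∃ i : Fin 3, ∀ x ∈ s.1, ∀ y ∈ s.1, x ≠ y → f x y = i then 1 else 0

/-- an infinite set homogeneous for `mono f` is homogeneous for `f` -/
private theorem hom_of_mono (f : ℕ → ℕ → Fin 3) (hsymm : ∀ x y, f x y = f y x) (G : Set ℕ)
    (hG : G ∈ (RT 3 2).Sol (mono f)) : ∃ i : Fin 3, ∀ u ∈ G, ∀ v ∈ G, u ≠ v → f u v = i := by
  classical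
  obtain ⟨hG, j, hj⟩ := hG
  obtain ⟨i, x, hx, y, hy, z, hz, hxy, hyz, h1, h2, h3⟩ := exists_mono_triangle f G hG
  have hsub3 : ∀ x ∈ G, ∀ y ∈ G, ∀ z ∈ G, ∀ w ∈ ({x, y, z} : Finset ℕ), w ∈ G := by
    intro x hx y hy z hz w hw
    simp only [Finset.mem_insert, Finset.mem_singleton] at hw
    rcases hw with rfl | rfl | rfl <;> assumption
  have hj1 : j = 1 := by
    have h4 := hj (tr x y z (by omega) (by omega) (by omega)) (hsub3 x hx y hy z hz)
    rw [← h4, mono, if_pos]
    refine ⟨i, ?_⟩
    intro u hu v hv huv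
    simp only [tr, Finset.mem_insert, Finset.mem_singleton] at hu hv
    rcases hu with rfl | rfl | rfl <;> rcases hv with rfl | rfl | rfl <;>
      first
        | exact absurd rfl huv
        | assumption
        | (rw [hsymm]; assumption)
  have hmono : ∀ x ∈ G, ∀ y ∈ G, ∀ z ∈ G, x ≠ y → x ≠ z → y ≠ z →
      f x y = f x z ∧ f x y = f y z := by
    intro x hx y hy z hz hxy hxz hyz
    have h4 := hj (tr x y z hxy hxz hyz) (hsub3 x hx y hy z hz)
    rw [hj1, mono] at h4
    by_cases hex : ∃ i : Fin 3, ∀ u ∈ (tr x y z hxy hxz hyz).1,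
        ∀ v ∈ (tr x y z hxy hxz hyz).1, u ≠ v → f u v = i
    · obtain ⟨i, hi⟩ := hex
      have m1 : x ∈ (tr x y z hxy hxz hyz).1 := by simp [tr]
      have m2 : y ∈ (tr x y z hxy hxz hyz).1 := by simp [tr]
      have m3 : z ∈ (tr x y z hxy hxz hyz).1 := by simp [tr]
      have a1 := hi x m1 y m2 hxy
      have a2 := hi x m1 z m3 hxz
      have a3 := hi y m2 z m3 hyz
      exact ⟨a1.trans a2.symm, a1.trans a3.symm⟩
    · rw [if_neg hex] at h4
      exact absurd h4 (by decide)
  have hstep : ∀ a ∈ G, ∀ b ∈ G, ∀ c ∈ G, a ≠ b → a ≠ c → f a b = f a c := by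
    intro a ha b hb c hc hab hac
    by_cases hbc : b = c
    · rw [hbc]
    · exact (hmono a ha b hb c hc hab hac hbc).1
  refine ⟨i, fun u hu v hv huv => ?_⟩
  obtain ⟨w, hw, hwgt⟩ := hG.exists_gt (u + v + x + y)
  have e1 : f u v = f u w := hstep u hu v hv w hw huv (by omega)
  have e2 : f w u = f w x := hstep w hw u hu x hx (by omega) (by omega)
  have e3 : f x w = f x y := hstep x hx w hw y hy (by omega) (by omega)
  rw [e1, hsymm u w, e2, hsymm w x, e3, h1]

/-- **Ramsey's theorem for triples and two colours, and Ramsey's theorem for pairs and three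
colours, are not strongly omnisciently computably reducible to Ramsey's theorem for pairs and two
colours**, even if the backward computation may use countably many oracles fixed in advance. -/
theorem result (𝒞 : Set (ℕ →. ℕ)) (h𝒞 : 𝒞.Countable) :
    ¬ SocReducible 𝒞 (RT 3 2) (RT 2 2) ∧ ¬ SocReducible 𝒞 (RT 2 3) (RT 2 2) := by
  classical
  obtain ⟨f, hsymm, hf⟩ := coreRel 𝒞 h𝒞
  constructor
  · intro hred
    obtain ⟨d, hd⟩ := hred (mono f)
    obtain ⟨H, hH, hc, hno⟩ := hf (bin d)
    obtain ⟨G, hG, hcomp⟩ := hd H (sol_of_bin d H hH hc)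
    obtain ⟨i, hi⟩ := hom_of_mono f hsymm G hG
    obtain ⟨u, hu, v, hv, huv, hne⟩ := hno G hG.1 hcomp i
    exact hne (hi u hu v hv huv)
  · intro hred
    -- the colouring of unordered pairs given by `f`
    have key : ∀ s : Tuples 2, ∃ c : Fin 3, ∀ x ∈ s.1, ∀ y ∈ s.1, x ≠ y → f x y = c := by
      rintro ⟨s, hs⟩
      obtain ⟨x, y, hxy, rfl⟩ := Finset.card_eq_two.1 hs
      refine ⟨f x y, ?_⟩
      intro u hu v hv huv
      simp only [Finset.mem_insert, Finset.mem_singleton] at hu hv
      rcases hu with rfl | rfl <;> rcases hv with rfl | rfl <;>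
        first
          | exact absurd rfl huv
          | rfl
          | exact hsymm _ _
    choose F hF using key
    obtain ⟨d, hd⟩ := hred F
    obtain ⟨H, hH, hc, hno⟩ := hf (bin d)
    obtain ⟨G, hG, hcomp⟩ := hd H (sol_of_bin d H hH hc)
    obtain ⟨hGinf, i, hi⟩ := hG
    obtain ⟨u, hu, v, hv, huv, hne⟩ := hno G hGinf hcomp i
    apply hne
    have hsub : ∀ x ∈ (pr u v huv).1, x ∈ G := by
      intro x hx
      simp only [pr, Finset.mem_insert, Finset.mem_singleton] at hx
      rcases hx with rfl | rfl <;> assumption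
    have h1 := hi (pr u v huv) hsub
    rw [← h1]
    exact hF (pr u v huv) u (by simp [pr]) v (by simp [pr]) huv

end Pool.Agent.Results.MP_16f0b8_lc.RamseySocNegative
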